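import Pool.Agent.Lib.MP_d55432_al.DenseMain
import Pool.Agent.Lib.MP_d55432_al.Homog
import Pool.Agent.Lib.MP_d55432_al.GS.H87.Main

/-!
# Images of homogeneous Lie polynomials on the simple Lie algebra of type `G₂`. Definitions

The Lie algebra `g2 K` is the algebra of derivations of the split octonions, written as
`7 × 7` matrices acting on the trace zero octonions in Zorn coordinates `(a; u; v)`:
coordinate `0` is `a`, coordinates `1, 2, 3` are `u` and coordinates `4, 5, 6` are `v`.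
See `Paper.md` in this folder.
-/

namespace Pool.Agent.Lib.MP_d55432_al.G2

open Matrix LieAlgebra

attribute [local instance 100] LieRing.ofAssociativeRing

/-- Trace zero octonions in Zorn coordinates. -/
abbrev V7 (A : Type*) := Fin 7 → A

/-- `7 × 7` matrices. -/
abbrev M7 (A : Type*) := Matrix (Fin 7) (Fin 7) A

section ring

variable {A : Type*} [CommRing A]

/-- The commutator `x y - y x` of two trace zero octonions. -/
def br (x y : V7 A) : V7 A := ![
  x 1 * y 4 + x 2 * y 5 + x 3 * y 6 - (x 4 * y 1 + x 5 * y 2 + x 6 * y 3),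
  2 * (x 0 * y 1 - y 0 * x 1 - (x 5 * y 6 - x 6 * y 5)),
  2 * (x 0 * y 2 - y 0 * x 2 - (x 6 * y 4 - x 4 * y 6)),
  2 * (x 0 * y 3 - y 0 * x 3 - (x 4 * y 5 - x 5 * y 4)),
  2 * (y 0 * x 4 - x 0 * y 4 + (x 2 * y 3 - x 3 * y 2)),
  2 * (y 0 * x 5 - x 0 * y 5 + (x 3 * y 1 - x 1 * y 3)),
  2 * (y 0 * x 6 - x 0 * y 6 + (x 1 * y 2 - x 2 * y 1))]

/-- The quadratic form: `x * x = qq x`. -/
def qq (x : V7 A) : A := x 0 ^ 2 + x 1 * x 4 + x 2 * x 5 + x 3 * x 6

/-- The polar form of `qq`: `x * y + y * x = bb x y`. -/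
def bb (x y : V7 A) : A := 2 * (x 0 * y 0) + (x 1 * y 4 + x 2 * y 5 + x 3 * y 6) +
  (x 4 * y 1 + x 5 * y 2 + x 6 * y 3)

/-- The matrix of `y ↦ br x y`. -/
def adM (x : V7 A) : M7 A := !![
  0, -x 4, -x 5, -x 6, x 1, x 2, x 3;
  -2 * x 1, 2 * x 0, 0, 0, 0, 2 * x 6, -2 * x 5;
  -2 * x 2, 0, 2 * x 0, 0, -2 * x 6, 0, 2 * x 4;
  -2 * x 3, 0, 0, 2 * x 0, 2 * x 5, -2 * x 4, 0;
  2 * x 4, 0, -2 * x 3, 2 * x 2, -2 * x 0, 0, 0;
  2 * x 5, 2 * x 3, 0, -2 * x 1, 0, -2 * x 0, 0;
  2 * x 6, -2 * x 2, 2 * x 1, 0, 0, 0, -2 * x 0]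

/-- The inner derivation attached to two octonions. -/
def DD (x y : V7 A) : M7 A := adM x * adM y - adM y * adM x + adM (br x y)

/-- The general derivation: `f 0, …, f 7` are the entries of the traceless matrix
`!![f 0, f 2, f 3; f 4, f 1, f 5; f 6, f 7, -f 0 - f 1]`, `p = (f 8, f 9, f 10)`,
`q = (f 11, f 12, f 13)`. -/
def gM (f : Fin 14 → A) : M7 A := !![
  0, -f 11, -f 12, -f 13, -f 8, -f 9, -f 10;
  2 * f 8, f 0, f 2, f 3, 0, -f 13, f 12;
  2 * f 9, f 4, f 1, f 5, f 13, 0, -f 11;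
  2 * f 10, f 6, f 7, -f 0 - f 1, -f 12, f 11, 0;
  2 * f 11, 0, -f 10, f 9, -f 0, -f 4, -f 6;
  2 * f 12, f 10, 0, -f 8, -f 2, -f 1, -f 7;
  2 * f 13, -f 9, f 8, 0, -f 3, -f 5, f 0 + f 1]

/-- The torus. -/
def TT (l m : A) : M7 A := Matrix.diagonal ![0, l, m, -l - m, -l, -m, l + m]

theorem adM_mulVec (x y : V7 A) : adM x *ᵥ y = br x y := by
  funext i
  fin_cases i <;> simp [adM, br, Matrix.mulVec, dotProduct, Fin.sum_univ_succ] <;> ring

theorem br_self (x : V7 A) : br x x = 0 := by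
  funext i
  fin_cases i <;> simp [br] <;> ring

theorem br_swap (x y : V7 A) : br y x = -br x y := by
  funext i
  fin_cases i <;> simp [br] <;> ring

theorem br_add_left (x y z : V7 A) : br (x + y) z = br x z + br y z := by
  funext i
  fin_cases i <;> simp [br] <;> ring

theorem br_add_right (x y z : V7 A) : br x (y + z) = br x y + br x z := by
  funext i
  fin_cases i <;> simp [br] <;> ring

theorem br_smul_left (c : A) (x y : V7 A) : br (c • x) y = c • br x y := by
  funext i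
  fin_cases i <;> simp [br] <;> ring

theorem br_smul_right (c : A) (x y : V7 A) : br x (c • y) = c • br x y := by
  funext i
  fin_cases i <;> simp [br] <;> ring

theorem bb_self (x : V7 A) : bb x x = 2 * qq x := by
  simp only [bb, qq]
  ring

theorem bb_comm (x y : V7 A) : bb x y = bb y x := by
  simp only [bb]
  ring

/-- The double commutator. -/
theorem br_br (x y : V7 A) : br x (br x y) = (4 * qq x) • y - (2 * bb x y) • x := by
  funext i
  fin_cases i <;> simp [br, qq, bb] <;> ring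

theorem TT_eq (l m : A) : TT l m = gM ![l, m, 0, 0, 0, 0, 0, 0, 0, 0, 0, 0, 0, 0] := by
  ext i j
  fin_cases i <;> fin_cases j <;> simp [TT, gM]

end ring

section field

variable (K : Type*) [Field K]

/-- The Lie algebra of type `G₂`: the derivations of the (trace zero) split octonions. -/
def g2 : LieSubalgebra K (M7 K) where
  carrier := {X | ∀ x y : V7 K, X *ᵥ br x y = br (X *ᵥ x) y + br x (X *ᵥ y)}
  add_mem' := by
    intro X Y hX hY x y
    rw [add_mulVec, add_mulVec, add_mulVec, hX, hY, br_add_left, br_add_right]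
    abel
  zero_mem' := by
    intro x y
    simp only [zero_mulVec]
    have h : ∀ z : V7 K, br 0 z = 0 := fun z => by simpa using br_smul_left (0 : K) z z
    have h' : ∀ z : V7 K, br z 0 = 0 := fun z => by simpa using br_smul_right (0 : K) z z
    rw [h, h', add_zero]
  smul_mem' := by
    intro c X hX x y
    rw [smul_mulVec, smul_mulVec, smul_mulVec, hX, br_smul_left, br_smul_right, smul_add]
  lie_mem' := by
    intro X Y hX hY x y
    have h : ∀ z : V7 K, ⁅X, Y⁆ *ᵥ z = X *ᵥ (Y *ᵥ z) - Y *ᵥ (X *ᵥ z) := by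
      intro z
      rw [LieRing.of_associative_ring_bracket, sub_mulVec, mulVec_mulVec, mulVec_mulVec]
    have hs : ∀ x y z : V7 K, br (x - y) z = br x z - br y z := by
      intro x y z
      rw [sub_eq_add_neg, br_add_left, ← neg_one_smul K y, br_smul_left, neg_one_smul,
        ← sub_eq_add_neg]
    have hs' : ∀ x y z : V7 K, br x (y - z) = br x y - br x z := by
      intro x y z
      rw [sub_eq_add_neg, br_add_right, ← neg_one_smul K z, br_smul_right, neg_one_smul,
        ← sub_eq_add_neg]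
    rw [h, h, h, hX, hY, hs, hs', mulVec_add, mulVec_add, hX, hX, hY, hY]
    abel

variable {K}

theorem mem_g2 (X : M7 K) :
    X ∈ g2 K ↔ ∀ x y : V7 K, X *ᵥ br x y = br (X *ᵥ x) y + br x (X *ᵥ y) := Iff.rfl

/-- `g` is an automorphism of the trace zero octonions with inverse `h`. -/
def IsG (g h : M7 K) : Prop :=
  g * h = 1 ∧ h * g = 1 ∧ ∀ x y : V7 K, g *ᵥ br x y = br (g *ᵥ x) (g *ᵥ y)

theorem IsG.symm {g h : M7 K} (H : IsG g h) : IsG h g := by
  refine ⟨H.2.1, H.1, fun x y => ?_⟩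
  have hx : ∀ z : V7 K, g *ᵥ (h *ᵥ z) = z := fun z => by
    rw [mulVec_mulVec, H.1, one_mulVec]
  have hx' : ∀ z : V7 K, h *ᵥ (g *ᵥ z) = z := fun z => by
    rw [mulVec_mulVec, H.2.1, one_mulVec]
  conv_lhs => rw [← hx x, ← hx y, ← H.2.2, hx']

theorem IsG.one : IsG (1 : M7 K) 1 :=
  ⟨one_mul 1, one_mul 1, fun x y => by rw [one_mulVec, one_mulVec, one_mulVec]⟩

theorem IsG.mul {g h g' h' : M7 K} (H : IsG g h) (H' : IsG g' h') : IsG (g * g') (h' * h) := by
  refine ⟨?_, ?_, fun x y => ?_⟩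
  · rw [Matrix.mul_assoc, ← Matrix.mul_assoc g' h' h, H'.1, Matrix.one_mul, H.1]
  · rw [Matrix.mul_assoc, ← Matrix.mul_assoc h g g', H.2.1, Matrix.one_mul, H'.2.1]
  · rw [← mulVec_mulVec, ← mulVec_mulVec, ← mulVec_mulVec, H'.2.2, H.2.2]

theorem conj_mem {g h : M7 K} (H : IsG g h) {X : M7 K} (hX : X ∈ g2 K) :
    g * X * h ∈ g2 K := by
  intro x y
  have hx : ∀ z : V7 K, g *ᵥ (h *ᵥ z) = z := fun z => by
    rw [mulVec_mulVec, H.1, one_mulVec]
  have e : ∀ z : V7 K, (g * X * h) *ᵥ z = g *ᵥ (X *ᵥ (h *ᵥ z)) := fun z => by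
    rw [mulVec_mulVec, mulVec_mulVec, Matrix.mul_assoc]
  rw [e, e, e, H.symm.2.2, hX, mulVec_add, H.2.2, H.2.2, hx, hx]

/-- Conjugation by an automorphism of the octonions. -/
def conjG (g h : M7 K) (H : IsG g h) : g2 K ≃ₗ⁅K⁆ g2 K where
  toFun X := ⟨g * X.1 * h, conj_mem H X.2⟩
  map_add' X Y := by
    apply Subtype.ext
    change g * (X.1 + Y.1) * h = g * X.1 * h + g * Y.1 * h
    rw [Matrix.mul_add, Matrix.add_mul]
  map_smul' c X := by
    apply Subtype.ext
    change g * (c • X.1) * h = c • (g * X.1 * h)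
    rw [Matrix.mul_smul, Matrix.smul_mul]
  map_lie' := by
    intro X Y
    apply Subtype.ext
    change g * (X.1 * Y.1 - Y.1 * X.1) * h =
      (g * X.1 * h) * (g * Y.1 * h) - (g * Y.1 * h) * (g * X.1 * h)
    have h1 : ∀ P Q : M7 K, (g * P * h) * (g * Q * h) = g * (P * Q) * h := by
      intro P Q
      calc (g * P * h) * (g * Q * h) = g * P * (h * g) * Q * h := by
            simp only [Matrix.mul_assoc]
        _ = _ := by rw [H.2.1, Matrix.mul_one]; simp only [Matrix.mul_assoc]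
    rw [h1, h1, ← Matrix.sub_mul, ← Matrix.mul_sub]
  invFun X := ⟨h * X.1 * g, conj_mem H.symm X.2⟩
  left_inv X := by
    apply Subtype.ext
    change h * (g * X.1 * h) * g = X.1
    calc h * (g * X.1 * h) * g = (h * g) * X.1 * (h * g) := by simp only [Matrix.mul_assoc]
      _ = _ := by rw [H.2.1, Matrix.one_mul, Matrix.mul_one]
  right_inv X := by
    apply Subtype.ext
    change g * (h * X.1 * g) * h = X.1
    calc g * (h * X.1 * g) * h = (g * h) * X.1 * (g * h) := by simp only [Matrix.mul_assoc]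
      _ = _ := by rw [H.1, Matrix.one_mul, Matrix.mul_one]

theorem conjG_coe (g h : M7 K) (H : IsG g h) (X : g2 K) : (conjG g h H X).1 = g * X.1 * h := rfl

end field

end Pool.Agent.Lib.MP_d55432_al.G2
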