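import Pool.Agent.Lib.MP_d55432_al.G2.Iface

/-!
# G2: covariants

Closure properties of polynomial equivariant homogeneous functions of `n` vectors and a scalar.
-/

namespace Pool.Agent.Lib.MP_d55432_al.G2

open Matrix LieAlgebra

attribute [local instance 100] LieRing.ofAssociativeRing

variable {K : Type*} [Field K] {n : ℕ}

/-- The space of `n` vectors and a scalar. -/
abbrev PT (K : Type*) (n : ℕ) := (Fin n → V7 K) × K

/-- The action of a matrix. -/
def act (g : M7 K) (p : PT K n) : PT K n := (fun i => g *ᵥ p.1 i, p.2)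

/-- Scaling. -/
def scl (t : K) (p : PT K n) : PT K n := (fun i => t • p.1 i, t * p.2)

/-- Invariant polynomial functions, homogeneous of degree `d`. -/
structure SC (d : ℕ) (φ : PT K n → K) : Prop where
  poly : φ ∈ PF K n
  inv : ∀ g h, IsG g h → ∀ p, φ (act g p) = φ p
  homog : ∀ t p, φ (scl t p) = t ^ d * φ p

/-- Equivariant polynomial vector valued functions, homogeneous of degree `d`. -/
structure VC (d : ℕ) (x : PT K n → V7 K) : Prop where
  poly : ∀ j, (fun p => x p j) ∈ PF K n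
  equiv : ∀ g h, IsG g h → ∀ p, x (act g p) = g *ᵥ x p
  homog : ∀ t p, x (scl t p) = t ^ d • x p

/-- Equivariant polynomial matrix valued functions, homogeneous of degree `d`. -/
structure MC (d : ℕ) (M : PT K n → M7 K) : Prop where
  poly : ∀ i j, (fun p => M p i j) ∈ PF K n
  equiv : ∀ g h, IsG g h → ∀ p, M (act g p) = g * M p * h
  homog : ∀ t p, M (scl t p) = t ^ d • M p

theorem SC.congr {d d' : ℕ} {φ : PT K n → K} (h : SC d φ) (e : d = d') : SC d' φ := e ▸ h

theorem VC.congr {d d' : ℕ} {x : PT K n → V7 K} (h : VC d x) (e : d = d') : VC d' x := e ▸ h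

theorem MC.congr {d d' : ℕ} {M : PT K n → M7 K} (h : MC d M) (e : d = d') : MC d' M := e ▸ h

theorem VC.coord (i : Fin n) : VC 1 (fun p : PT K n => p.1 i) where
  poly j := Algebra.subset_adjoin (Or.inl ⟨i, j, rfl⟩)
  equiv g h _ p := rfl
  homog t p := by rw [pow_one]; rfl

theorem SC.scalar : SC 1 (fun p : PT K n => p.2) where
  poly := Algebra.subset_adjoin (Or.inr rfl)
  inv g h _ p := rfl
  homog t p := by rw [pow_one]; rfl

theorem SC.const (c : K) : SC 0 (fun _ : PT K n => c) where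
  poly := (PF K n).algebraMap_mem c
  inv g h _ p := rfl
  homog t p := by rw [pow_zero, one_mul]

theorem SC.add {d : ℕ} {φ ψ : PT K n → K} (h : SC d φ) (h' : SC d ψ) :
    SC d (fun p => φ p + ψ p) where
  poly := (PF K n).add_mem h.poly h'.poly
  inv g k H p := by rw [h.inv g k H, h'.inv g k H]
  homog t p := by rw [h.homog, h'.homog, mul_add]

theorem SC.mul {d e : ℕ} {φ ψ : PT K n → K} (h : SC d φ) (h' : SC e ψ) :
    SC (d + e) (fun p => φ p * ψ p) where
  poly := (PF K n).mul_mem h.poly h'.poly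
  inv g k H p := by rw [h.inv g k H, h'.inv g k H]
  homog t p := by rw [h.homog, h'.homog, pow_add]; ring

theorem SC.smul {d : ℕ} {φ : PT K n → K} (c : K) (h : SC d φ) : SC d (fun p => c * φ p) :=
  ((SC.const c).mul h).congr (zero_add d)

theorem SC.neg {d : ℕ} {φ : PT K n → K} (h : SC d φ) : SC d (fun p => -φ p) := by
  simpa only [neg_one_mul] using h.smul (-1)

theorem SC.sub {d : ℕ} {φ ψ : PT K n → K} (h : SC d φ) (h' : SC d ψ) :
    SC d (fun p => φ p - ψ p) := by
  simpa only [sub_eq_add_neg] using h.add h'.neg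

theorem SC.pow {d : ℕ} {φ : PT K n → K} (h : SC d φ) (k : ℕ) : SC (k * d) (fun p => φ p ^ k) := by
  induction k with
  | zero => simpa only [pow_zero, zero_mul] using SC.const (n := n) (1 : K)
  | succ k ih =>
    simp only [pow_succ]
    exact (ih.mul h).congr (by ring)

theorem VC.add {d : ℕ} {x y : PT K n → V7 K} (h : VC d x) (h' : VC d y) :
    VC d (fun p => x p + y p) where
  poly j := (PF K n).add_mem (h.poly j) (h'.poly j)
  equiv g k H p := by rw [h.equiv g k H, h'.equiv g k H, mulVec_add]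
  homog t p := by rw [h.homog, h'.homog, smul_add]

theorem VC.smul {d e : ℕ} {φ : PT K n → K} {x : PT K n → V7 K} (h : SC d φ) (h' : VC e x) :
    VC (d + e) (fun p => φ p • x p) where
  poly j := (PF K n).mul_mem h.poly (h'.poly j)
  equiv g k H p := by rw [h.inv g k H, h'.equiv g k H, mulVec_smul]
  homog t p := by rw [h.homog, h'.homog, smul_smul, smul_smul, pow_add]; congr 1; ring

theorem VC.csmul {e : ℕ} (c : K) {x : PT K n → V7 K} (h' : VC e x) :
    VC e (fun p => c • x p) :=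
  (VC.smul (SC.const c) h').congr (zero_add e)

theorem VC.neg {e : ℕ} {x : PT K n → V7 K} (h' : VC e x) : VC e (fun p => -x p) := by
  simpa only [neg_one_smul] using h'.csmul (-1)

theorem VC.sub {d : ℕ} {x y : PT K n → V7 K} (h : VC d x) (h' : VC d y) :
    VC d (fun p => x p - y p) := by
  simpa only [sub_eq_add_neg] using h.add h'.neg

theorem br_poly {x y : PT K n → V7 K} (h : ∀ j, (fun p => x p j) ∈ PF K n)
    (h' : ∀ j, (fun p => y p j) ∈ PF K n) (j : Fin 7) : (fun p => br (x p) (y p) j) ∈ PF K n := by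
  have m : ∀ i k, (fun p => x p i * y p k) ∈ PF K n := fun i k => (PF K n).mul_mem (h i) (h' k)
  have m' : ∀ i k, (fun p => y p i * x p k) ∈ PF K n := fun i k => (PF K n).mul_mem (h' i) (h k)
  have a : ∀ {φ ψ : PT K n → K}, φ ∈ PF K n → ψ ∈ PF K n → (fun p => φ p + ψ p) ∈ PF K n :=
    fun h1 h2 => (PF K n).add_mem h1 h2
  have s : ∀ {φ ψ : PT K n → K}, φ ∈ PF K n → ψ ∈ PF K n → (fun p => φ p - ψ p) ∈ PF K n :=
    fun h1 h2 => (PF K n).sub_mem h1 h2
  have t : ∀ {φ : PT K n → K}, φ ∈ PF K n → (fun p => 2 * φ p) ∈ PF K n := fun h1 =>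
    (PF K n).mul_mem ((PF K n).algebraMap_mem 2) h1
  fin_cases j
  · exact s (a (a (m 1 4) (m 2 5)) (m 3 6)) (a (a (m 4 1) (m 5 2)) (m 6 3))
  · exact t (s (s (m 0 1) (m' 0 1)) (s (m 5 6) (m 6 5)))
  · exact t (s (s (m 0 2) (m' 0 2)) (s (m 6 4) (m 4 6)))
  · exact t (s (s (m 0 3) (m' 0 3)) (s (m 4 5) (m 5 4)))
  · exact t (a (s (m' 0 4) (m 0 4)) (s (m 2 3) (m 3 2)))
  · exact t (a (s (m' 0 5) (m 0 5)) (s (m 3 1) (m 1 3)))
  · exact t (a (s (m' 0 6) (m 0 6)) (s (m 1 2) (m 2 1)))

theorem VC.br {d e : ℕ} {x y : PT K n → V7 K} (h : VC d x) (h' : VC e y) :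
    VC (d + e) (fun p => G2.br (x p) (y p)) where
  poly := br_poly h.poly h'.poly
  equiv g k H p := by rw [h.equiv g k H, h'.equiv g k H, H.2.2]
  homog t p := by
    rw [h.homog, h'.homog, br_smul_left, br_smul_right, smul_smul, pow_add]

theorem VC.as3 {d e f : ℕ} {x y z : PT K n → V7 K} (h : VC d x) (h' : VC e y) (h'' : VC f z) :
    VC (d + e + f) (fun p => G2.as3 (x p) (y p) (z p)) := by
  refine VC.add (VC.add ((h.br h').br h'') (((h'.br h'').br h).congr ?_))
    (((h''.br h).br h').congr ?_)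
  · ring
  · ring

theorem SC.qq (hD : DER_S K) {d : ℕ} {x : PT K n → V7 K} (h : VC d x) :
    SC (2 * d) (fun p => G2.qq (x p)) where
  poly := by
    have m : ∀ i k, (fun p => x p i * x p k) ∈ PF K n := fun i k =>
      (PF K n).mul_mem (h.poly i) (h.poly k)
    have a : ∀ {φ ψ : PT K n → K}, φ ∈ PF K n → ψ ∈ PF K n → (fun p => φ p + ψ p) ∈ PF K n :=
      fun h1 h2 => (PF K n).add_mem h1 h2
    simp only [G2.qq, sq]
    exact a (a (a (m 0 0) (m 1 4)) (m 2 5)) (m 3 6)
  inv g k H p := by rw [h.equiv g k H, hD.2.2.1 g k H]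
  homog t p := by
    rw [h.homog]
    simp only [G2.qq, Pi.smul_apply, smul_eq_mul]
    ring

theorem SC.bb (hD : DER_S K) {d e : ℕ} {x y : PT K n → V7 K} (h : VC d x) (h' : VC e y) :
    SC (d + e) (fun p => G2.bb (x p) (y p)) where
  poly := by
    have m : ∀ i k, (fun p => x p i * y p k) ∈ PF K n := fun i k =>
      (PF K n).mul_mem (h.poly i) (h'.poly k)
    have a : ∀ {φ ψ : PT K n → K}, φ ∈ PF K n → ψ ∈ PF K n → (fun p => φ p + ψ p) ∈ PF K n :=
      fun h1 h2 => (PF K n).add_mem h1 h2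
    have t : ∀ {φ : PT K n → K}, φ ∈ PF K n → (fun p => 2 * φ p) ∈ PF K n := fun h1 =>
      (PF K n).mul_mem ((PF K n).algebraMap_mem 2) h1
    simp only [G2.bb]
    exact a (a (t (m 0 0)) (a (a (m 1 4) (m 2 5)) (m 3 6))) (a (a (m 4 1) (m 5 2)) (m 6 3))
  inv g k H p := by rw [h.equiv g k H, h'.equiv g k H, hD.2.2.2.1 g k H]
  homog t p := by
    rw [h.homog, h'.homog]
    simp only [G2.bb, Pi.smul_apply, smul_eq_mul]
    ring

theorem mul_poly {M N : PT K n → M7 K} (h : ∀ i j, (fun p => M p i j) ∈ PF K n)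
    (h' : ∀ i j, (fun p => N p i j) ∈ PF K n) (i j : Fin 7) :
    (fun p => (M p * N p) i j) ∈ PF K n := by
  have e : (fun p => (M p * N p) i j) = ∑ k, fun p => M p i k * N p k j := by
    funext p
    rw [Finset.sum_apply, Matrix.mul_apply]
  rw [e]
  exact (PF K n).sum_mem fun k _ => (PF K n).mul_mem (h i k) (h' k j)

theorem adM_poly {x : PT K n → V7 K} (h : ∀ j, (fun p => x p j) ∈ PF K n) (i j : Fin 7) :
    (fun p => adM (x p) i j) ∈ PF K n := by
  have e : (fun p => adM (x p) i j) = fun p => G2.br (x p) (ee j) i := by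
    funext p
    rw [← adM_mulVec, ee, mulVec_single_one]
    rfl
  rw [e]
  exact br_poly h (fun k => (PF K n).algebraMap_mem (ee j k)) i

theorem MC.DD (hD : DER_S K) {d e : ℕ} {x y : PT K n → V7 K} (h : VC d x) (h' : VC e y) :
    MC (d + e) (fun p => G2.DD (x p) (y p)) where
  poly i j := (PF K n).add_mem ((PF K n).sub_mem
    (mul_poly (adM_poly h.poly) (adM_poly h'.poly) i j)
    (mul_poly (adM_poly h'.poly) (adM_poly h.poly) i j)) (adM_poly (br_poly h.poly h'.poly) i j)
  equiv g k H p := by rw [h.equiv g k H, h'.equiv g k H, hD.2.1 g k H]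
  homog t p := by
    have ha : ∀ (c : K) (x : V7 K), adM (c • x) = c • adM x := by
      intro c x
      ext i j
      fin_cases i <;> fin_cases j <;> simp [adM] <;> ring
    rw [h.homog, h'.homog, G2.DD, G2.DD, br_smul_left, br_smul_right, ha, ha, ha, ha,
      smul_mul_smul_comm, smul_mul_smul_comm, smul_add, smul_sub, smul_smul, pow_add,
      mul_comm (t ^ e) (t ^ d)]

theorem MC.add {d : ℕ} {M N : PT K n → M7 K} (h : MC d M) (h' : MC d N) :
    MC d (fun p => M p + N p) where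
  poly i j := (PF K n).add_mem (h.poly i j) (h'.poly i j)
  equiv g k H p := by rw [h.equiv g k H, h'.equiv g k H, Matrix.mul_add, Matrix.add_mul]
  homog t p := by rw [h.homog, h'.homog, smul_add]

theorem MC.smul {d e : ℕ} {φ : PT K n → K} {M : PT K n → M7 K} (h : SC d φ) (h' : MC e M) :
    MC (d + e) (fun p => φ p • M p) where
  poly i j := (PF K n).mul_mem h.poly (h'.poly i j)
  equiv g k H p := by
    rw [h.inv g k H, h'.equiv g k H, Matrix.mul_smul, Matrix.smul_mul]
  homog t p := by rw [h.homog, h'.homog, smul_smul, smul_smul, pow_add]; congr 1; ring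

/-- A matrix valued covariant with values in `g2` gives a covariant. -/
theorem MC.isCov {d : ℕ} {M : PT K n → M7 K} (h : MC d M) (hd : 0 < d) (hM : ∀ p, M p ∈ g2 K) :
    IsCov d (fun a y => (⟨M (a, y), hM (a, y)⟩ : g2 K)) where
  pos := hd
  poly := h.poly
  equiv g k H a y := h.equiv g k H (a, y)
  homog t a y := Subtype.ext (h.homog t (a, y))

/-- The point with given coordinates. -/
def cd (p : PT K n) : (Fin n × Fin 7) ⊕ Unit → K :=
  Sum.elim (fun q => p.1 q.1 q.2) (fun _ => p.2)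

theorem cd_surj (z : (Fin n × Fin 7) ⊕ Unit → K) : ∃ p : PT K n, cd p = z := by
  refine ⟨(fun i j => z (Sum.inl (i, j)), z (Sum.inr ())), ?_⟩
  funext q
  rcases q with ⟨i, j⟩ | _ <;> rfl

theorem PF_iff {φ : PT K n → K} (h : φ ∈ PF K n) :
    ∃ P : MvPolynomial ((Fin n × Fin 7) ⊕ Unit) K, ∀ p, φ p = MvPolynomial.eval (cd p) P := by
  induction h using Algebra.adjoin_induction with
  | mem φ h =>
    rcases h with ⟨i, j, rfl⟩ | h
    · exact ⟨MvPolynomial.X (Sum.inl (i, j)), fun p => by rw [MvPolynomial.eval_X]; rfl⟩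
    · have h : φ = fun p => p.2 := h
      subst h
      exact ⟨MvPolynomial.X (Sum.inr ()), fun p => by rw [MvPolynomial.eval_X]; rfl⟩
  | algebraMap c => exact ⟨MvPolynomial.C c, fun p => by rw [MvPolynomial.eval_C]; rfl⟩
  | add φ ψ _ _ h h' =>
    obtain ⟨P, hP⟩ := h
    obtain ⟨Q, hQ⟩ := h'
    exact ⟨P + Q, fun p => by rw [map_add, ← hP, ← hQ]; rfl⟩
  | mul φ ψ _ _ h h' =>
    obtain ⟨P, hP⟩ := h
    obtain ⟨Q, hQ⟩ := h'
    exact ⟨P * Q, fun p => by rw [map_mul, ← hP, ← hQ]; rfl⟩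

/-- The algebra `PF` has no zero divisors. -/
theorem PF_domain [Infinite K] {φ ψ : PT K n → K} (h : φ ∈ PF K n) (h' : ψ ∈ PF K n)
    (hm : ∀ p, φ p * ψ p = 0) (hn : ∃ p, ψ p ≠ 0) (p : PT K n) : φ p = 0 := by
  obtain ⟨P, hP⟩ := PF_iff h
  obtain ⟨Q, hQ⟩ := PF_iff h'
  have h0 : P * Q = 0 := by
    apply MvPolynomial.funext
    intro z
    obtain ⟨p, rfl⟩ := cd_surj z
    rw [map_mul, ← hP, ← hQ, hm, map_zero]
  rcases mul_eq_zero.1 h0 with h1 | h1
  · rw [hP, h1, map_zero]
  · obtain ⟨q, hq⟩ := hn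
    rw [hQ, h1, map_zero] at hq
    exact absurd rfl hq

/-- Composition of a polynomial function on `g2` with a polynomial map. -/
theorem PF_comp {M : PT K n → g2 K} (h : ∀ i j, (fun p => (M p).1 i j) ∈ PF K n) {g : g2 K → K}
    (hg : g ∈ PolyOn K (g2 K)) : (fun p => g (M p)) ∈ PF K n := by
  induction hg using Algebra.adjoin_induction with
  | mem g hg =>
    obtain ⟨ψ, rfl⟩ := hg
    obtain ⟨χ, hχ⟩ := LinearMap.exists_extend (p := (g2 K).toSubmodule) ψ
    have e : (fun p => ψ (M p)) = ∑ i, ∑ j, fun p => χ (Matrix.single i j 1) * (M p).1 i j := by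
      funext p
      have h1 : ψ (M p) = χ (M p).1 := by
        rw [← hχ]
        rfl
      rw [h1, Finset.sum_apply]
      conv_lhs => rw [Matrix.matrix_eq_sum_single (M p).1]
      rw [map_sum]
      refine Finset.sum_congr rfl fun i _ => ?_
      rw [map_sum, Finset.sum_apply]
      refine Finset.sum_congr rfl fun j _ => ?_
      have h2 : Matrix.single i j ((M p).1 i j) = (M p).1 i j • Matrix.single i j (1 : K) := by
        rw [Matrix.smul_single, smul_eq_mul, mul_one]
      rw [h2, map_smul, smul_eq_mul, mul_comm]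
    change (fun p => ψ (M p)) ∈ PF K n
    rw [e]
    exact (PF K n).sum_mem fun i _ => (PF K n).sum_mem fun j _ =>
      (PF K n).mul_mem ((PF K n).algebraMap_mem _) (h i j)
  | algebraMap c => exact (PF K n).algebraMap_mem c
  | add g g' _ _ h1 h2 => exact (PF K n).add_mem h1 h2
  | mul g g' _ _ h1 h2 => exact (PF K n).mul_mem h1 h2

/-- If the generic value of `M` lies in a set, then a polynomial vanishing on this set vanishes on
all values. -/
theorem generic_vanish [Infinite K] {M : PT K n → g2 K} (h : ∀ i j, (fun p => (M p).1 i j) ∈ PF K n)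
    {δ : PT K n → K} (hδ : δ ∈ PF K n) (hn : ∃ p, δ p ≠ 0) {g : g2 K → K}
    (hg : g ∈ PolyOn K (g2 K)) (hz : ∀ p, δ p ≠ 0 → g (M p) = 0) (p : PT K n) : g (M p) = 0 := by
  refine PF_domain (PF_comp h hg) hδ (fun p => ?_) hn p
  by_cases hp : δ p = 0
  · rw [hp, mul_zero]
  · rw [hz p hp, zero_mul]

end Pool.Agent.Lib.MP_d55432_al.G2
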