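import Pool.Agent.Lib.MP_d55432_al.G2.Cov

/-!
# G2: the map for regular rays

`REGID`: the map `FF`, divided by a power of `qq a`, is of the type `P0`.
-/

namespace Pool.Agent.Lib.MP_d55432_al.G2

open Matrix LieAlgebra

attribute [local instance 100] LieRing.ofAssociativeRing

section coef

variable {K : Type*} [CommRing K]

/-- coefficient 0 -/
def c0 (m A B z t : K) : K :=
  -2 * m ^ 2 * (1 + m) ^ 3 * (1 - m) ^ 3 * (2 + m) ^ 2 * (1 + 2 * m) * B ^ 2 * t ^ 6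
    - 4 * m ^ 3 * (1 + m) ^ 4 * (1 - m) ^ 4 * (2 + m) ^ 3 * (1 + 2 * m) * A * t ^ 8
    + (-2 * m ^ 2 - 4 * m + 4) * m * (1 + m) ^ 2 * (1 - m) ^ 2 * (2 + m) * (1 + 2 * m) * A ^ 2 * B ^ 2 * z * t ^ 4
    + (4 * m + 12) * m ^ 2 * (1 + m) ^ 3 * (1 - m) ^ 4 * (2 + m) ^ 2 * (1 + 2 * m) * A ^ 3 * z * t ^ 6
    + (4 * m ^ 2 + 8 * m - 2) * (1 + m) * (1 - m) * (1 + 2 * m) * A ^ 4 * B ^ 2 * z ^ 2 * t ^ 2
    + (12 * m ^ 2 + 24 * m - 12) * m * (1 + m) ^ 2 * (1 - m) ^ 2 * (2 + m) * (1 + 2 * m) * A ^ 5 * z ^ 2 * t ^ 4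
    - 2 * (1 + 2 * m) * A ^ 6 * B ^ 2 * z ^ 3
    + (-12 * m ^ 2 - 24 * m + 4) * (1 + m) * (1 - m) * (1 + 2 * m) * A ^ 7 * z ^ 3 * t ^ 2
    + 4 * (1 + 2 * m) * A ^ 9 * z ^ 4

/-- coefficient 1 -/
def c1 (m A B z t : K) : K :=
  6 * m ^ 3 * (1 + m) ^ 4 * (1 - m) ^ 3 * (2 + m) ^ 2 * (1 + 2 * m) * B * t ^ 7
    - (1 + m) ^ 2 * (1 - m) * B ^ 5 * z * t
    - 5 * m * (1 + m) ^ 3 * (1 - m) ^ 2 * (2 + m) * A * B ^ 3 * z * t ^ 3
    + (8 * m ^ 3 + 10 * m ^ 2 - 44 * m - 28) * m ^ 2 * (1 + m) ^ 3 * (1 - m) ^ 2 * (2 + m) * A ^ 2 * B * z * t ^ 5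
    + 5 * (1 + m) ^ 2 * (1 - m) * A ^ 3 * B ^ 3 * z ^ 2 * t
    + (-16 * m ^ 3 - 20 * m ^ 2 + 52 * m + 38) * m * (1 + m) ^ 2 * (1 - m) * A ^ 4 * B * z ^ 2 * t ^ 3
    + (8 * m ^ 2 - 6 * m - 8) * (1 + m) * A ^ 6 * B * z ^ 3 * t

/-- coefficient 2 -/
def c2 (m A B z t : K) : K :=
  -12 * m ^ 3 * (1 + m) ^ 4 * (1 - m) ^ 3 * (2 + m) ^ 2 * (1 + 2 * m) * A * t ^ 7
    + (1 + m) ^ 2 * (1 - m) * A * B ^ 4 * z * t
    + 4 * m * (1 + m) ^ 3 * (1 - m) ^ 2 * (2 + m) * A ^ 2 * B ^ 2 * z * t ^ 3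
    + (-4 * m ^ 2 + 40) * m ^ 2 * (1 + m) ^ 3 * (1 - m) ^ 2 * (2 + m) * (1 + 2 * m) * A ^ 3 * z * t ^ 5
    - 4 * (1 + m) ^ 2 * (1 - m) * A ^ 4 * B ^ 2 * z ^ 2 * t
    + (8 * m ^ 2 - 44) * m * (1 + m) ^ 2 * (1 - m) * (1 + 2 * m) * A ^ 5 * z ^ 2 * t ^ 3
    + (-4 * m + 8) * (1 + m) * (1 + 2 * m) * A ^ 7 * z ^ 3 * t

/-- coefficient 3 -/
def c3 (m A B z t : K) : K :=
  2 * m ^ 2 * (1 + m) ^ 3 * (1 - m) ^ 3 * (2 + m) ^ 2 * (1 + 2 * m) * B * t ^ 6
    - 3 * m * (1 + m) ^ 2 * (1 - m) * (2 + m) * A * B ^ 3 * z * t ^ 2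
    + (-8 * m ^ 3 - 26 * m ^ 2 - 28 * m - 4) * m * (1 + m) ^ 2 * (1 - m) ^ 2 * (2 + m) * A ^ 2 * B * z * t ^ 4
    + 3 * (1 + m) * A ^ 3 * B ^ 3 * z ^ 2
    + (16 * m ^ 3 + 52 * m ^ 2 + 44 * m + 2) * (1 + m) * (1 - m) * A ^ 4 * B * z ^ 2 * t ^ 2
    + (-8 * m - 10) * A ^ 6 * B * z ^ 3

/-- coefficient 4 -/
def c4 (m A B z t : K) : K :=
  2 * m ^ 2 * (1 + m) ^ 3 * (1 - m) ^ 3 * (2 + m) ^ 2 * (1 + 2 * m) * A * B * t ^ 6
    + (2 * m ^ 2 + 4 * m - 4) * m * (1 + m) ^ 2 * (1 - m) ^ 2 * (2 + m) * (1 + 2 * m) * A ^ 3 * B * z * t ^ 4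
    + (-4 * m ^ 2 - 8 * m + 2) * (1 + m) * (1 - m) * (1 + 2 * m) * A ^ 5 * B * z ^ 2 * t ^ 2
    + 2 * (1 + 2 * m) * A ^ 7 * B * z ^ 3

/-- coefficient 5 -/
def c5 (m A B z t : K) : K :=
  6 * m ^ 2 * (1 + m) ^ 3 * (1 - m) ^ 2 * (2 + m) * (1 + 2 * m) * B ^ 2 * t ^ 5
    + 12 * m ^ 3 * (1 + m) ^ 4 * (1 - m) ^ 3 * (2 + m) ^ 2 * (1 + 2 * m) * A * t ^ 7
    + (1 + m) ^ 2 * (1 - m) * A * B ^ 4 * z * t
    + (-m ^ 3 - 8 * m ^ 2 - 23 * m - 4) * m * (1 + m) ^ 2 * (1 - m) * A ^ 2 * B ^ 2 * z * t ^ 3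
    + (4 * m ^ 3 - 4 * m ^ 2 - 76 * m - 32) * m ^ 2 * (1 + m) ^ 3 * (1 - m) ^ 2 * (2 + m) * A ^ 3 * z * t ^ 5
    + (m ^ 2 + 6 * m - 1) * (1 + m) * A ^ 4 * B ^ 2 * z ^ 2 * t
    + (-8 * m ^ 3 + 8 * m ^ 2 + 80 * m + 28) * m * (1 + m) ^ 2 * (1 - m) * A ^ 5 * z ^ 2 * t ^ 3
    + (4 * m ^ 2 - 12 * m - 4) * (1 + m) * A ^ 7 * z ^ 3 * t

/-- coefficient 6 -/
def c6 (m A B z t : K) : K :=
  -6 * m ^ 2 * (1 + m) ^ 3 * (1 - m) ^ 2 * (2 + m) * (1 + 2 * m) * A * B * t ^ 5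
    - (1 + m) ^ 2 * (1 - m) * A ^ 2 * B ^ 3 * z * t
    + (6 * m ^ 2 + 24 * m + 6) * m * (1 + m) ^ 2 * (1 - m) * A ^ 3 * B * z * t ^ 3
    - 6 * m * (1 + m) * A ^ 5 * B * z ^ 2 * t

/-- coefficient 7 -/
def c7 (m A B z t : K) : K :=
  -4 * m ^ 2 * (1 + m) ^ 3 * (1 - m) ^ 3 * (2 + m) ^ 2 * (1 + 2 * m) * A * t ^ 6
    + 3 * m * (1 + m) ^ 2 * (1 - m) * (2 + m) * A ^ 2 * B ^ 2 * z * t ^ 2
    + (4 * m ^ 3 + 16 * m ^ 2 + 32 * m + 8) * m * (1 + m) ^ 2 * (1 - m) ^ 2 * (2 + m) * A ^ 3 * z * t ^ 4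
    - 3 * (1 + m) * A ^ 4 * B ^ 2 * z ^ 2
    + (-8 * m ^ 3 - 32 * m ^ 2 - 40 * m - 4) * (1 + m) * (1 - m) * A ^ 5 * z ^ 2 * t ^ 2
    + 4 * (2 + m) * A ^ 7 * z ^ 3

/-- The constant `k₁`. -/
def kk1 (m : K) : K := (1 - m) * (-1 - m)

/-- The constant `k₀`. -/
def kk0 (m : K) : K := (2 + m) * m * kk1 m

end coef

section maps

variable {K : Type*} [Field K]

/-- Combination of the four vectors `l, [a, l], [b, l], [b, [a, l]]`. -/
def cmb (a b l : V7 K) (c₀ c₁ c₂ c₃ : K) : V7 K :=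
  c₀ • l + c₁ • br a l + c₂ • br b l + c₃ • br b (br a l)

/-- The map, before substitution. -/
def FF (m A B z t : K) (a b l : V7 K) : M7 K :=
  DD a (cmb a b l (4 * c0 m A B z t) (2 * c1 m A B z t) (2 * c2 m A B z t) (c3 m A B z t)) +
  DD b (cmb a b l (4 * c4 m A B z t) (2 * c5 m A B z t) (2 * c6 m A B z t) (c7 m A B z t))

/-- The first orthogonal vector. -/
def wv (A B : K) (a b : V7 K) : V7 K := B • a - A • b

/-- The second orthogonal vector. -/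
def fv (m A B C t : K) (a b : V7 K) : V7 K :=
  (B ^ 2 - 2 * A * C) • a - (A * B) • b + (kk1 m * t * A) • br a b

/-- The kernel vector. -/
def ev (m A B C t : K) (a b l : V7 K) : V7 K :=
  cmb a b l 0 (2 * (m - 1) * (B ^ 2 - A * C)) (-(2 * (m - 1) * (A * B))) (m * (kk1 m * t) * A)

theorem br_lin (x y z : V7 K) : br x (br y z) + br y (br x z) =
    (4 * bb x y) • z - (2 * bb x z) • y - (2 * bb y z) • x := by
  funext i
  simp only [Pi.add_apply, Pi.sub_apply, Pi.smul_apply, smul_eq_mul]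
  fin_cases i <;> simp [br, bb] <;> ring

theorem br_n (x y z : V7 K) : (2 : K) • br (br x y) z =
    br y (br x z) - br x (br y z) + (6 * bb y z) • x - (6 * bb x z) • y := by
  funext i
  simp only [Pi.add_apply, Pi.sub_apply, Pi.smul_apply, smul_eq_mul]
  fin_cases i <;> simp [br, bb] <;> ring

theorem bb_br (x y z : V7 K) : bb (br x y) z = -bb y (br x z) := by
  simp [br, bb]
  ring

theorem bb_br_self (x y : V7 K) : bb x (br x y) = 0 := by
  simp [br, bb]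
  ring

theorem adM_add (x y : V7 K) : adM (x + y) = adM x + adM y := by
  ext i j
  fin_cases i <;> fin_cases j <;> simp [adM] <;> ring

theorem adM_smul (c : K) (x : V7 K) : adM (c • x) = c • adM x := by
  ext i j
  fin_cases i <;> fin_cases j <;> simp [adM] <;> ring

theorem DD_add_right (x y z : V7 K) : DD x (y + z) = DD x y + DD x z := by
  rw [DD, DD, DD, br_add_right, adM_add, adM_add, Matrix.mul_add, Matrix.add_mul]
  abel

theorem DD_smul_right (c : K) (x y : V7 K) : DD x (c • y) = c • DD x y := by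
  rw [DD, DD, br_smul_right, adM_smul, adM_smul, Matrix.mul_smul, Matrix.smul_mul, smul_add,
    smul_sub]

theorem DD_swap (x y : V7 K) : DD y x = -DD x y := by
  have h : adM (-br x y) = -adM (br x y) := by
    rw [← neg_one_smul K, adM_smul, neg_one_smul]
  rw [DD, DD, br_swap, h]
  abel

theorem DD_add_left (x y z : V7 K) : DD (x + y) z = DD x z + DD y z := by
  rw [DD_swap z, DD_add_right, DD_swap x z, DD_swap y z]
  abel

theorem DD_smul_left (c : K) (x y : V7 K) : DD (c • x) y = c • DD x y := by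
  rw [DD_swap y, DD_smul_right, DD_swap x y, smul_neg, neg_neg]

theorem DD_n (hD : DER_S K) (x y z : V7 K) : DD (br x y) z = DD x (br y z) - DD y (br x z) := by
  have h := hD.2.2.2.2.2 x y z
  rw [DD_swap x (br y z), br_swap x z, ← neg_one_smul K (br x z), DD_smul_left, neg_one_smul,
    DD_swap y (br x z)] at h
  rw [neg_neg] at h
  have h' : DD (br x y) z = DD x (br y z) - DD y (br x z) + (DD (br x y) z + -DD x (br y z) +
    DD y (br x z)) := by abel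
  rw [h', h, add_zero]

variable {a b l : V7 K} {A B C : K}

theorem qq_lc (x y : V7 K) (p q : K) :
    qq (p • x + q • y) = p ^ 2 * qq x + p * q * bb x y + q ^ 2 * qq y := by
  simp [qq, bb]
  ring

theorem bb_add_right (x y z : V7 K) : bb x (y + z) = bb x y + bb x z := by
  simp [bb]
  ring

theorem bb_smul_right (c : K) (x y : V7 K) : bb x (c • y) = c * bb x y := by
  simp [bb]
  ring

theorem br_cmb_a (ha : qq a = A) (hab : bb a b = B) (h1 : bb a l = 0) (h2 : bb b l = 0)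
    (h3 : bb (br a b) l = 0) (c₀ c₁ c₂ c₃ : K) :
    br a (cmb a b l c₀ c₁ c₂ c₃) =
      cmb a b l (4 * A * c₁ + 4 * B * c₂) (c₀ + 4 * B * c₃) (-(4 * A * c₃)) (-c₂) := by
  have h3' : bb b (br a l) = 0 := by rw [bb_br] at h3; exact neg_eq_zero.1 h3
  have e1 : br a (br a l) = (4 * A) • l := by
    rw [br_br, h1, ha, mul_zero, zero_smul, sub_zero]
  have e2 : br a (br b l) = (4 * B) • l - br b (br a l) := by
    have h := br_lin a b l
    rw [h1, h2, hab, mul_zero, zero_smul, zero_smul, sub_zero, sub_zero] at h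
    rw [← h, add_sub_cancel_right]
  have e3 : br a (br b (br a l)) = (4 * B) • br a l - (4 * A) • br b l := by
    have h := br_lin a b (br a l)
    rw [bb_br_self, h3', hab, mul_zero, zero_smul, zero_smul, sub_zero, sub_zero, e1,
      br_smul_right] at h
    rw [← h, add_sub_cancel_right]
  simp only [cmb, br_add_right, br_smul_right, e1, e2, e3]
  module

theorem br_cmb_b (hb : qq b = C) (h2 : bb b l = 0)
    (h3 : bb (br a b) l = 0) (c₀ c₁ c₂ c₃ : K) :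
    br b (cmb a b l c₀ c₁ c₂ c₃) =
      cmb a b l (4 * C * c₂) (4 * C * c₃) c₀ c₁ := by
  have h3' : bb b (br a l) = 0 := by rw [bb_br] at h3; exact neg_eq_zero.1 h3
  have e1 : br b (br b l) = (4 * C) • l := by
    rw [br_br, h2, hb, mul_zero, zero_smul, sub_zero]
  have e2 : br b (br b (br a l)) = (4 * C) • br a l := by
    rw [br_br, h3', hb, mul_zero, zero_smul, sub_zero]
  simp only [cmb, br_add_right, br_smul_right, e1, e2]
  module

theorem bb_a_cmb (ha : qq a = A) (hab : bb a b = B) (h1 : bb a l = 0) (h2 : bb b l = 0)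
    (h3 : bb (br a b) l = 0) (c₀ c₁ c₂ c₃ : K) : bb a (cmb a b l c₀ c₁ c₂ c₃) = 0 := by
  have h3' : bb b (br a l) = 0 := by rw [bb_br] at h3; exact neg_eq_zero.1 h3
  have h4 : bb a (br b l) = 0 := by
    have := bb_br b a l
    rw [br_swap a b, ← neg_one_smul K, bb_comm, bb_smul_right, bb_comm, h3, mul_zero] at this
    exact neg_eq_zero.1 this.symm
  have h5 : bb a (br b (br a l)) = 0 := by
    have e := bb_br b a (br a l)
    have e' := bb_br a b (br a l)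
    rw [br_br, h1, ha, mul_zero, zero_smul, sub_zero, bb_smul_right, h2, mul_zero, neg_zero] at e'
    rw [br_swap a b, ← neg_one_smul K, bb_comm, bb_smul_right, bb_comm, e', mul_zero] at e
    exact neg_eq_zero.1 e.symm
  simp only [cmb, bb_add_right, bb_smul_right, h1, bb_br_self, h4, h5, mul_zero, add_zero]

theorem bb_b_cmb (h2 : bb b l = 0)
    (h3 : bb (br a b) l = 0) (c₀ c₁ c₂ c₃ : K) : bb b (cmb a b l c₀ c₁ c₂ c₃) = 0 := by
  have h3' : bb b (br a l) = 0 := by rw [bb_br] at h3; exact neg_eq_zero.1 h3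
  simp only [cmb, bb_add_right, bb_smul_right, h2, h3', bb_br_self, mul_zero, add_zero]

theorem br_cmb_n [CharZero K] (ha : qq a = A) (hab : bb a b = B) (hb : qq b = C) (h1 : bb a l = 0)
    (h2 : bb b l = 0) (h3 : bb (br a b) l = 0) (c₀ c₁ c₂ c₃ : K) :
    br (br a b) (cmb a b l c₀ c₁ c₂ c₃) =
      cmb a b l (-(2 * B * c₀) - 16 * A * C * c₃) (-(2 * B * c₁) - 4 * C * c₂)
        (4 * A * c₁ + 2 * B * c₂) (c₀ + 2 * B * c₃) := by
  have h := br_n a b (cmb a b l c₀ c₁ c₂ c₃)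
  rw [bb_a_cmb ha hab h1 h2 h3, bb_b_cmb h2 h3, mul_zero, zero_smul, zero_smul, add_zero, sub_zero,
    br_cmb_a ha hab h1 h2 h3, br_cmb_b hb h2 h3, br_cmb_b hb h2 h3, br_cmb_a ha hab h1 h2 h3] at h
  have h2' : (2 : K) ≠ 0 := two_ne_zero
  apply smul_right_injective (V7 K) h2'
  change (2 : K) • _ = (2 : K) • _
  rw [h]
  simp only [cmb]
  module

theorem cmb_add (p q : Fin 4 → K) : cmb a b l (p 0) (p 1) (p 2) (p 3) +
    cmb a b l (q 0) (q 1) (q 2) (q 3) =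
      cmb a b l (p 0 + q 0) (p 1 + q 1) (p 2 + q 2) (p 3 + q 3) := by
  simp only [cmb]
  module

/-- The matrix attached to two quadruples. -/
def D2 (a b l : V7 K) (p q : Fin 4 → K) : M7 K :=
  DD a (cmb a b l (p 0) (p 1) (p 2) (p 3)) + DD b (cmb a b l (q 0) (q 1) (q 2) (q 3))

theorem D2_smul (c : K) (p q : Fin 4 → K) : c • D2 a b l p q = D2 a b l (c • p) (c • q) := by
  have h : ∀ p : Fin 4 → K, c • cmb a b l (p 0) (p 1) (p 2) (p 3) =
      cmb a b l ((c • p) 0) ((c • p) 1) ((c • p) 2) ((c • p) 3) := by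
    intro p
    simp only [cmb, Pi.smul_apply, smul_eq_mul]
    module
  rw [D2, D2, ← h, ← h, DD_smul_right, DD_smul_right, smul_add]

theorem D2_add (p q p' q' : Fin 4 → K) :
    D2 a b l p q + D2 a b l p' q' = D2 a b l (p + p') (q + q') := by
  have h : ∀ p p' : Fin 4 → K, cmb a b l ((p + p') 0) ((p + p') 1) ((p + p') 2) ((p + p') 3) =
      cmb a b l (p 0) (p 1) (p 2) (p 3) + cmb a b l (p' 0) (p' 1) (p' 2) (p' 3) := by
    intro p p'
    simp only [cmb, Pi.add_apply]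
    module
  rw [D2, D2, D2, h, h, DD_add_right, DD_add_right]
  abel

/-- Action of `br a`. -/
def La (A B : K) (c : Fin 4 → K) : Fin 4 → K :=
  ![4 * A * c 1 + 4 * B * c 2, c 0 + 4 * B * c 3, -(4 * A * c 3), -c 2]

/-- Action of `br b`. -/
def Lb (C : K) (c : Fin 4 → K) : Fin 4 → K :=
  ![4 * C * c 2, 4 * C * c 3, c 0, c 1]

/-- Action of `br (br a b)`. -/
def Ln (A B C : K) (c : Fin 4 → K) : Fin 4 → K :=
  ![-(2 * B * c 0) - 16 * A * C * c 3, -(2 * B * c 1) - 4 * C * c 2, 4 * A * c 1 + 2 * B * c 2,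
    c 0 + 2 * B * c 3]

/-- The vector attached to a quadruple. -/
def cm (a b l : V7 K) (c : Fin 4 → K) : V7 K := cmb a b l (c 0) (c 1) (c 2) (c 3)

theorem D2_eq (p q : Fin 4 → K) : D2 a b l p q = DD a (cm a b l p) + DD b (cm a b l q) := rfl

theorem br_cm_lin [CharZero K] (ha : qq a = A) (hab : bb a b = B) (hb : qq b = C)
    (h1 : bb a l = 0) (h2 : bb b l = 0) (h3 : bb (br a b) l = 0) (x y w : K) (c : Fin 4 → K) :
    br (x • a + y • b + w • br a b) (cm a b l c) =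
      cm a b l (x • La A B c + y • Lb C c + w • Ln A B C c) := by
  rw [br_add_left, br_add_left, br_smul_left, br_smul_left, br_smul_left, cm,
    br_cmb_a ha hab h1 h2 h3, br_cmb_b hb h2 h3, br_cmb_n ha hab hb h1 h2 h3]
  simp only [cm, cmb, La, Lb, Ln, Pi.add_apply, Pi.smul_apply, smul_eq_mul, Matrix.cons_val_zero,
    Matrix.cons_val_one, Matrix.cons_val_two, Matrix.cons_val_three, Matrix.cons_val,
    Matrix.head_cons, Matrix.tail_cons]
  module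

theorem DD_lin (hD : DER_S K) (ha : qq a = A) (hab : bb a b = B) (hb : qq b = C)
    (h1 : bb a l = 0) (h2 : bb b l = 0) (h3 : bb (br a b) l = 0) (x y w : K) (c : Fin 4 → K) :
    DD (x • a + y • b + w • br a b) (cm a b l c) =
      D2 a b l (x • c + w • Lb C c) (y • c - w • La A B c) := by
  have e1 : br b (cm a b l c) = cm a b l (Lb C c) := by
    rw [cm, br_cmb_b hb h2 h3]
    rfl
  have e2 : br a (cm a b l c) = cm a b l (La A B c) := by
    rw [cm, br_cmb_a ha hab h1 h2 h3]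
    rfl
  have e3 : ∀ (u v : K) (p q : Fin 4 → K), cm a b l (u • p + v • q) =
      u • cm a b l p + v • cm a b l q := by
    intro u v p q
    simp only [cm, cmb, Pi.add_apply, Pi.smul_apply, smul_eq_mul]
    module
  have e4 : y • c - w • La A B c = y • c + (-w) • La A B c := by
    rw [neg_smul, sub_eq_add_neg]
  rw [D2_eq, e4, e3, e3, ← e1, ← e2, DD_add_left, DD_add_left, DD_smul_left, DD_smul_left,
    DD_smul_left, DD_n hD, DD_add_right, DD_add_right, DD_smul_right, DD_smul_right, DD_smul_right,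
    DD_smul_right]
  module

/-- REGID: the map `FF` is of the type `P0`. -/
theorem regid [CharZero K] (hD : DER_S K) (m z t : K) (ha : qq a = A) (hab : bb a b = B)
    (hC : C = kk0 m * t ^ 2 + A ^ 2 * z) (hb : qq b = C)
    (h1 : bb a l = 0) (h2 : bb b l = 0) (h3 : bb (br a b) l = 0) :
    (2 * (1 - m) * A ^ 5) • FF m A B z t a b l =
      -P0 1 m (ev m A B C t a b l) (wv A B a b) (fv m A B C t a b) := by
  have hw : wv A B a b = B • a + (-A) • b + (0 : K) • br a b := by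
    rw [wv]
    module
  have hf : fv m A B C t a b = (B ^ 2 - 2 * A * C) • a + (-(A * B)) • b +
      (kk1 m * t * A) • br a b := by
    rw [fv]
    module
  have he : ev m A B C t a b l = cm a b l ![0, 2 * (m - 1) * (B ^ 2 - A * C),
      -(2 * (m - 1) * (A * B)), m * (kk1 m * t) * A] := rfl
  have hqw : qq (wv A B a b) = A ^ 2 * C := by
    have : wv A B a b = B • a + (-A) • b := by rw [wv]; module
    rw [this, qq_lc, ha, hab, hb]
    ring
  have hqn : qq (br a b) = B ^ 2 - 4 * A * C := by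
    rw [← ha, ← hab, ← hb]
    simp [qq, bb, br]
    ring
  have hqf : qq (fv m A B C t a b) = (B ^ 2 - 4 * A * C) * (A ^ 2 * ((kk1 m * t) ^ 2 - C)) := by
    rw [hf]
    have e : qq ((B ^ 2 - 2 * A * C) • a + (-(A * B)) • b + (kk1 m * t * A) • br a b) =
        (B ^ 2 - 2 * A * C) ^ 2 * qq a + (B ^ 2 - 2 * A * C) * (-(A * B)) * bb a b +
          (-(A * B)) ^ 2 * qq b + (kk1 m * t * A) ^ 2 * qq (br a b) := by
      simp [qq, bb, br]
      ring
    rw [e, hqn, ha, hab, hb]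
    ring
  have hFF : FF m A B z t a b l = D2 a b l
      ![4 * c0 m A B z t, 2 * c1 m A B z t, 2 * c2 m A B z t, c3 m A B z t]
      ![4 * c4 m A B z t, 2 * c5 m A B z t, 2 * c6 m A B z t, c7 m A B z t] := rfl
  have hr : ∀ x y : V7 K, br x y = -br y x := fun x y => br_swap y x
  have hneg : ∀ x y : V7 K, DD x (-y) = -DD x y := by
    intro x y
    rw [← neg_one_smul K y, DD_smul_right, neg_one_smul]
  rw [P0, hqw, hqf, hr (ev m A B C t a b l) (wv A B a b), hr (ev m A B C t a b l), hneg, hneg,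
    he, hw, hf, br_cm_lin ha hab hb h1 h2 h3, br_cm_lin ha hab hb h1 h2 h3,
    DD_lin hD ha hab hb h1 h2 h3, DD_lin hD ha hab hb h1 h2 h3, smul_neg, smul_neg, ← neg_add,
    neg_neg, D2_smul, D2_smul, D2_add, hFF, D2_smul]
  congr 1
  · funext i
    fin_cases i
    · simp [La, Lb, Ln, c0, hC, kk0, kk1]
      ring
    · simp [La, Lb, Ln, c1, hC, kk0, kk1]
      ring
    · simp [La, Lb, Ln, c2, hC, kk0, kk1]
      ring
    · simp [La, Lb, Ln, c3, hC, kk0, kk1]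
      ring
  · funext i
    fin_cases i
    · simp [La, Lb, Ln, c4, hC, kk0, kk1]
      ring
    · simp [La, Lb, Ln, c5, hC, kk0, kk1]
      ring
    · simp [La, Lb, Ln, c6, hC, kk0, kk1]
      ring
    · simp [La, Lb, Ln, c7, hC, kk0, kk1]
      ring

end maps

end Pool.Agent.Lib.MP_d55432_al.G2
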