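import Pool.Agent.Lib.MP_d55432_al.G2.Cov

/-!
# G2: statements of the existence modules
-/

namespace Pool.Agent.Lib.MP_d55432_al.G2

open Matrix LieAlgebra

attribute [local instance 100] LieRing.ofAssociativeRing

/-- There is an equivariant map for the ray of `TT l m` with all possible values. -/
def HasEx (K : Type*) [Field K] (l m : K) : Prop :=
  ∃ (n d : ℕ) (Ψ : (Fin n → V7 K) → K → g2 K), IsCov d Ψ ∧
    (∀ g ∈ PolyOn K (g2 K), (∀ Y : g2 K, (∃ s : K, s ≠ 0 ∧ Cj (s • TT l m) Y.1) → g Y = 0) →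
      ∀ a y, g (Ψ a y) = 0) ∧
    (∃ a y, ∃ s : K, s ≠ 0 ∧ Cj (s • TT l m) (Ψ a y).1) ∧
    (∀ r ∈ ({0, 1, 2, 5} : Set ℕ), (r = 5 → Reg l m) →
      ∃ a y, Ψ a y ≠ 0 ∧ (Ψ a y).1 ^ 7 = 0 ∧ ((Ψ a y).1 * (Ψ a y).1).rank = r)

variable (K : Type*) [Field K]

/-- EXA: the wall `(1, 1, -2)`. -/
def EXA_S : Prop := HasEx K 1 1

/-- EXW2: the wall `(1, -1, 0)`. -/
def EXW2_S : Prop := HasEx K 1 (-1)

/-- EXREG: the regular rays. -/
def EXREG_S : Prop := ∀ m : K, Reg 1 m → HasEx K 1 m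

end Pool.Agent.Lib.MP_d55432_al.G2
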