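import Pool.Agent.Lib.MP_d55432_al.G2.Base

/-!
# G2: statements of the modules

A module `X` is a file proving `theorem x (K) ... : X_S K` (other statements may be used as
hypotheses). See `Paper.md` for proofs.
-/

namespace Pool.Agent.Lib.MP_d55432_al.G2

open Matrix LieAlgebra MvPolynomial

attribute [local instance 100] LieRing.ofAssociativeRing

section defs

variable {K : Type*} [Field K]

/-- Standard basis vectors. -/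
def ee (i : Fin 7) : V7 K := Pi.single i 1

/-- The equivariant map from matrices to vectors. -/
def tau (A : M7 K) : V7 K :=
  br (A *ᵥ ee 0) (ee 0) +
    (2 : K) • (br (A *ᵥ ee 1) (ee 4) + br (A *ᵥ ee 2) (ee 5) + br (A *ᵥ ee 3) (ee 6) +
      br (A *ᵥ ee 4) (ee 1) + br (A *ᵥ ee 5) (ee 2) + br (A *ᵥ ee 6) (ee 3))

/-- The first invariant (degree 2). -/
def s2 (X : M7 K) : K := (X * X).trace / 2

/-- The second invariant (degree 6). -/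
def s6 (X : M7 K) : K := ((X ^ 6).trace / 2 - s2 X ^ 3 / 4) / 3

/-- `X` is diagonalisable. -/
def IsDiag (X : M7 K) : Prop := (⨆ μ : K, Module.End.eigenspace (Matrix.toLin' X) μ) = ⊤

/-- Conjugation by automorphisms of the octonions. -/
def Cj (X Y : M7 K) : Prop := ∃ g h : M7 K, IsG g h ∧ Y = g * X * h

/-- The six times associator. -/
def as3 (x y z : V7 K) : V7 K := br (br x y) z + br (br y z) x + br (br z x) y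

/-- `l, m, -l - m` are nonzero and pairwise distinct. -/
def Reg (l m : K) : Prop := l * m * (l + m) * (l - m) * (2 * l + m) * (l + 2 * m) ≠ 0

/-- The four nilpotent matrices: root vector of a long root, of a short root, a regular nilpotent
matrix of `sl₃`, and a regular nilpotent matrix. -/
def N1 (K : Type*) [Field K] : M7 K := gM ![0, 0, 1, 0, 0, 0, 0, 0, 0, 0, 0, 0, 0, 0]

@[inherit_doc N1]
def N2 (K : Type*) [Field K] : M7 K := gM ![0, 0, 0, 0, 0, 0, 0, 0, 1, 0, 0, 0, 0, 0]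

@[inherit_doc N1]
def N3 (K : Type*) [Field K] : M7 K := gM ![0, 0, 1, 0, 0, 1, 0, 0, 0, 0, 0, 0, 0, 0]

@[inherit_doc N1]
def N4 (K : Type*) [Field K] : M7 K := gM ![0, 0, 0, 0, 0, 1, 0, 0, 0, 0, 0, 0, 1, 0]

/-- The set attached to a ray and a set of ranks. -/
def RS (K : Type*) [Field K] (l m : K) (T : Set ℕ) : Set (g2 K) :=
  {X | X = 0 ∨ (∃ s : K, s ≠ 0 ∧ Cj (s • TT l m) X.1) ∨
    (X ≠ 0 ∧ X.1 ^ 7 = 0 ∧ (X.1 * X.1).rank ∈ T)}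

/-- Polynomial functions of `n` vectors and a scalar. -/
def PF (K : Type*) [Field K] (n : ℕ) : Subalgebra K ((Fin n → V7 K) × K → K) :=
  Algebra.adjoin K ({φ | ∃ i j, φ = fun p => p.1 i j} ∪ {fun p => p.2})

/-- An equivariant homogeneous polynomial map of degree `d` from `n` vectors and a scalar to the
Lie algebra. -/
structure IsCov {n : ℕ} (d : ℕ) (Ψ : (Fin n → V7 K) → K → g2 K) : Prop where
  pos : 0 < d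
  poly : ∀ i j, (fun p : (Fin n → V7 K) × K => (Ψ p.1 p.2).1 i j) ∈ PF K n
  equiv : ∀ g h, IsG g h → ∀ a y, (Ψ (fun i => g *ᵥ a i) y).1 = g * (Ψ a y).1 * h
  homog : ∀ (t : K) a y, Ψ (fun i => t • a i) (t * y) = t ^ d • Ψ a y

/-- The map attached to an orthogonal triple. -/
def P0 (l m : K) (e f₁ f₂ : V7 K) : M7 K :=
  ((2 * l + m) * qq f₂) • DD f₁ (br e f₁) + ((l + 2 * m) * qq f₁) • DD f₂ (br e f₂)

/-- The map for the wall `(1, -1, 0)`. -/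
def W2M (f g e : V7 K) : M7 K := DD f (br e g) + DD g (br e f)

end defs

variable (K : Type*) [Field K]

/-- PARAM: the elements of `g2`. -/
def PARAM_S : Prop := ∀ X : M7 K, X ∈ g2 K ↔ ∃ f, X = gM f

/-- DER: inner derivations, invariance of the quadratic form. -/
def DER_S : Prop :=
  (∀ x y : V7 K, DD x y ∈ g2 K) ∧
  (∀ g h : M7 K, IsG g h → ∀ x y, DD (g *ᵥ x) (g *ᵥ y) = g * DD x y * h) ∧
  (∀ g h : M7 K, IsG g h → ∀ x, qq (g *ᵥ x) = qq x) ∧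
  (∀ g h : M7 K, IsG g h → ∀ x y, bb (g *ᵥ x) (g *ᵥ y) = bb x y) ∧
  (∀ X ∈ g2 K, ∀ x y, bb (X *ᵥ x) y + bb x (X *ᵥ y) = 0) ∧
  (∀ x y z : V7 K, DD (br x y) z + DD (br y z) x + DD (br z x) y = 0)

/-- TAU: the equivariant map `tau`. -/
def TAU_S : Prop :=
  (∀ g h : M7 K, IsG g h → ∀ A, tau (g * A * h) = g *ᵥ tau A) ∧
  (∀ X ∈ g2 K, ∀ A, tau (X * A - A * X) = X *ᵥ tau A) ∧
  (∀ v : V7 K, ∃ x y z : g2 K, tau (x.1 * y.1 * z.1) = v)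

/-- FRAME: transitivity on frames. -/
def FRAME_S : Prop := ∀ e u₁ u₂ v₁ v₂ : V7 K, qq e = 1 → br e u₁ = (2 : K) • u₁ →
  br e u₂ = (2 : K) • u₂ → br e v₁ = -((2 : K) • v₁) → br e v₂ = -((2 : K) • v₂) →
  bb u₁ v₁ = 1 → bb u₁ v₂ = 0 → bb u₂ v₁ = 0 → bb u₂ v₂ = 1 →
  ∃ g h : M7 K, IsG g h ∧ g *ᵥ ee 0 = e ∧ g *ᵥ ee 1 = u₁ ∧ g *ᵥ ee 2 = u₂ ∧
    g *ᵥ ee 4 = v₁ ∧ g *ᵥ ee 5 = v₂

/-- FLAG: transitivity on special flags. -/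
def FLAG_S : Prop := ∀ w y : V7 K, qq w = 0 → qq y = 0 → br w y = 0 → w ≠ 0 →
  (∀ c : K, y ≠ c • w) → ∃ g h : M7 K, IsG g h ∧ g *ᵥ ee 1 = w ∧ g *ᵥ ee 6 = y

/-- DIAG: diagonalisable elements are conjugate into the torus. -/
def DIAG_S : Prop := ∀ X ∈ g2 K, IsDiag X → ∃ l m : K, Cj (TT l m) X

/-- SEMI: ad-semisimple elements are diagonalisable. -/
def SEMI_S [CharZero K] : Prop := ∀ X : g2 K, (LieAlgebra.ad K (g2 K) X).IsSemisimple → IsDiag X.1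

/-- SIMPLE: `g2` is simple. -/
def SIMPLE_S : Prop := LieAlgebra.IsSimple K (g2 K)

/-- WEYL: conjugacy in the torus. -/
def WEYL_S : Prop := ∀ l m l' m' : K, l ^ 2 + m ^ 2 + (l + m) ^ 2 = l' ^ 2 + m' ^ 2 + (l' + m') ^ 2 →
  (l * m * (l + m)) ^ 2 = (l' * m' * (l' + m')) ^ 2 → Cj (TT l m) (TT l' m')

/-- AUT: the automorphisms of `g2`. -/
def AUT_S : Prop := ∀ φ : g2 K ≃ₗ⁅K⁆ g2 K, ∃ (g h : M7 K) (H : IsG g h), ∀ X, φ X = conjG g h H X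

/-- INV: invariants. -/
def INV_S : Prop :=
  (∀ X Y : M7 K, Cj X Y → s2 Y = s2 X ∧ s6 Y = s6 X) ∧
  (∀ (t : K) (X : M7 K), s2 (t • X) = t ^ 2 * s2 X ∧ s6 (t • X) = t ^ 6 * s6 X) ∧
  (∀ l m : K, s2 (TT l m) = l ^ 2 + m ^ 2 + (l + m) ^ 2 ∧ s6 (TT l m) = (l * m * (l + m)) ^ 2) ∧
  (fun X : g2 K => s2 X.1) ∈ PolyOn K (g2 K) ∧ (fun X : g2 K => s6 X.1) ∈ PolyOn K (g2 K)

/-- CH: the Cayley–Hamilton identity. -/
def CH_S : Prop := ∀ X ∈ g2 K,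
  X ^ 7 - s2 X • X ^ 5 + (s2 X ^ 2 / 4) • X ^ 3 - s6 X • X = 0

/-- RD: regular elements are determined by their invariants. -/
def RD_S : Prop :=
  (∀ X ∈ g2 K, ∀ Y ∈ g2 K, IsDiag X → IsDiag Y → s2 X = s2 Y → s6 X = s6 Y → Cj X Y) ∧
  (∀ X ∈ g2 K, ∀ l m : K, Reg l m → s2 X = l ^ 2 + m ^ 2 + (l + m) ^ 2 →
    s6 X = (l * m * (l + m)) ^ 2 → Cj (TT l m) X) ∧
  (∀ X ∈ g2 K, s2 X ≠ 0 → X ^ 3 = (s2 X / 2) • X → IsDiag X) ∧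
  (∀ X ∈ g2 K, s2 X ≠ 0 → X ^ 5 - (5 * s2 X / 6) • X ^ 3 + (s2 X ^ 2 / 9) • X = 0 → IsDiag X) ∧
  (∀ X ∈ g2 K, X ^ 7 = 0 ↔ (s2 X = 0 ∧ s6 X = 0))

/-- NRM: norms from the torus to the invariants. -/
def NRM_S : Prop := ∀ G : MvPolynomial (Fin 2) K, G ≠ 0 → ∃ Φ : MvPolynomial (Fin 2) K, Φ ≠ 0 ∧
  ∀ l m : K, eval ![l, m] G = 0 →
    eval ![l ^ 2 + m ^ 2 + (l + m) ^ 2, (l * m * (l + m)) ^ 2] Φ = 0

/-- DENSE: the range of a homogeneous map is dense if the invariants are not proportional. -/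
def DENSE_S : Prop := ∀ (m b : ℕ) (f : (Fin m → g2 K) → g2 K), 0 < b → IsPolyMap K f →
  IsAutEquivariant K f → (∀ (t : K) (a : Fin m → g2 K), f (t • a) = t ^ b • f a) →
  (∀ α β : K, (∀ a, α * s2 (f a).1 ^ 3 + β * s6 (f a).1 = 0) → α = 0 ∧ β = 0) →
  ∀ g ∈ PolyOn K (g2 K), (∀ a, g (f a) = 0) → ∀ y, g y = 0

/-- WALL: polynomial identities for the elements of the walls, and their ranks. -/
def WALL_S : Prop := ∀ l m : K, (l ≠ 0 ∨ m ≠ 0) → ¬ Reg l m → ∀ X : g2 K,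
  (∀ g ∈ PolyOn K (g2 K), (∀ Y : g2 K, (∃ s : K, s ≠ 0 ∧ Cj (s • TT l m) Y.1) → g Y = 0) →
    g X = 0) → (∃ s : K, s ≠ 0 ∧ Cj (s • TT l m) X.1) ∨ X.1 ^ 5 = 0

/-- ONLY: the shape of the homogeneous images. -/
def ONLY_S : Prop := ∀ (S : Set (g2 K)) (m b : ℕ) (f : (Fin m → g2 K) → g2 K), 0 < b →
  IsPolyMap K f → IsAutEquivariant K f → (∀ (t : K) (a : Fin m → g2 K), f (t • a) = t ^ b • f a) →
  (0 : g2 K) ∈ S → (∀ (t : K), ∀ x ∈ S, t • x ∈ S) → (∀ φ : g2 K ≃ₗ⁅K⁆ g2 K, ∀ x ∈ S, φ x ∈ S) →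
  S ⊆ Set.range f → (∀ g ∈ PolyOn K (g2 K), (∀ y ∈ S, g y = 0) → ∀ a, g (f a) = 0) →
  S = {0} ∨ (∀ g ∈ PolyOn K (g2 K), (∀ y ∈ S, g y = 0) → ∀ y, g y = 0) ∨
    ∃ (l m : K) (T : Set ℕ), (l ≠ 0 ∨ m ≠ 0) ∧ T ⊆ {0, 1, 2, 5} ∧ (5 ∈ T → Reg l m) ∧
      S = RS K l m T

/-- NILA: nilpotent elements which kill a vector of nonzero norm. -/
def NILA_S : Prop := ∀ X ∈ g2 K, X ^ 7 = 0 → (∃ e, qq e ≠ 0 ∧ X *ᵥ e = 0) →
  X = 0 ∨ Cj (N1 K) X ∨ Cj (N3 K) X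

/-- NILC: a good flag for the other nilpotent elements. -/
def NILC_S : Prop := ∀ X ∈ g2 K, X ^ 7 = 0 → (∀ e, X *ᵥ e = 0 → qq e = 0) →
  ∃ w y : V7 K, qq w = 0 ∧ qq y = 0 ∧ br w y = 0 ∧ w ≠ 0 ∧ X *ᵥ w = 0 ∧ X *ᵥ y = w

/-- NILD: nilpotent elements adapted to a good flag. -/
def NILD_S : Prop := ∀ X ∈ g2 K, X ^ 7 = 0 → X *ᵥ ee 1 = 0 → X *ᵥ ee 6 = ee 1 →
  (∃ e, qq e ≠ 0 ∧ X *ᵥ e = 0) ∨ Cj (N2 K) X ∨ Cj (N4 K) X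

/-- NIL: nilpotent elements. -/
def NIL_S : Prop :=
  (∀ X ∈ g2 K, X ^ 7 = 0 → X ≠ 0 → ((X * X).rank = 0 ∧ Cj (N1 K) X) ∨
    ((X * X).rank = 1 ∧ Cj (N2 K) X) ∨ ((X * X).rank = 2 ∧ Cj (N3 K) X) ∨
    ((X * X).rank = 5 ∧ Cj (N4 K) X)) ∧
  (∀ X ∈ g2 K, X ^ 7 = 0 → ((X * X).rank = 5 ↔ X ^ 5 ≠ 0))

/-- CONS: the sets `RS` are constructible, stable cones. -/
def CONS_S : Prop := ∀ (l m : K) (T : Set ℕ), (l ≠ 0 ∨ m ≠ 0) →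
  (0 : g2 K) ∈ RS K l m T ∧ (∀ (t : K), ∀ x ∈ RS K l m T, t • x ∈ RS K l m T) ∧
  (∀ φ : g2 K ≃ₗ⁅K⁆ g2 K, ∀ x ∈ RS K l m T, φ x ∈ RS K l m T) ∧
  BoolComb (PolyOn K (g2 K) : Set (g2 K → K)) (RS K l m T)

/-- LIFT: covariants of vectors give covariants of tuples of elements of the Lie algebra. -/
def LIFT_S : Prop := ∀ (n d : ℕ) (Ψ : (Fin n → V7 K) → K → g2 K), IsCov d Ψ →
  ∃ (m b : ℕ) (f : (Fin m → g2 K) → g2 K), 0 < b ∧ IsPolyMap K f ∧ IsAutEquivariant K f ∧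
    (∀ (t : K) (a : Fin m → g2 K), f (t • a) = t ^ b • f a) ∧
    Set.range f = {X | ∃ a y, X = Ψ a y}

/-- PTYPE: the values of `P0`. -/
def PTYPE_S : Prop := ∀ (l m : K) (e f₁ f₂ : V7 K), bb f₁ f₂ = 0 → bb e f₁ = 0 → bb e f₂ = 0 →
  bb e (br f₁ f₂) = 0 → qq e ≠ 0 → qq f₁ ≠ 0 → qq f₂ ≠ 0 →
  ∃ s : K, s ≠ 0 ∧ Cj (s • TT l m) (P0 l m e f₁ f₂)

/-- EXW1: the map for the wall `(1, 1, -2)`. -/
def EXW1_S : Prop :=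
  (∀ x y : V7 K, bb x y ^ 2 - 4 * qq x * qq y ≠ 0 → ∃ s : K, s ≠ 0 ∧ Cj (s • TT 1 1) (DD x y)) ∧
  (∀ x y : V7 K, bb x y ^ 2 - 4 * qq x * qq y = 0 → DD x y ^ 5 = 0) ∧
  (∀ r ∈ ({0, 1, 2} : Set ℕ), ∃ x y : V7 K, DD x y ≠ 0 ∧ DD x y ^ 7 = 0 ∧
    (DD x y * DD x y).rank = r)

/-- EXIST: for every ray there is an equivariant map which takes all values in the closure. -/
def EXIST_S : Prop := ∀ l m : K, (l ≠ 0 ∨ m ≠ 0) →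
  ∃ (n d : ℕ) (Ψ : (Fin n → V7 K) → K → g2 K), IsCov d Ψ ∧
    (∀ g ∈ PolyOn K (g2 K), (∀ Y : g2 K, (∃ s : K, s ≠ 0 ∧ Cj (s • TT l m) Y.1) → g Y = 0) →
      ∀ a y, g (Ψ a y) = 0) ∧
    (∃ a y, ∃ s : K, s ≠ 0 ∧ Cj (s • TT l m) (Ψ a y).1) ∧
    (∀ r ∈ ({0, 1, 2, 5} : Set ℕ), (r = 5 → Reg l m) →
      ∃ a y, Ψ a y ≠ 0 ∧ (Ψ a y).1 ^ 7 = 0 ∧ ((Ψ a y).1 * (Ψ a y).1).rank = r)

/-- MULT: a multilinear Lie polynomial whose image is the closure of a ray. -/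
def MULT_S : Prop := ∃ (m : ℕ) (p : FreeLieAlgebra K (Fin m)), IsMultilinearLie p ∧
  RS K 1 1 {0, 1, 2} = lieImage (g2 K) p

/-- MAIN: the images of homogeneous Lie polynomials on `g2`. -/
def MAIN_S : Prop := ∀ S : Set (g2 K),
  (∃ (m d : ℕ) (p : FreeLieAlgebra K (Fin m)), IsHomogeneousLie d p ∧ S = lieImage (g2 K) p) ↔
  (S = {0} ∨
    ((0 : g2 K) ∈ S ∧ (∀ (t : K), ∀ x ∈ S, t • x ∈ S) ∧
      (∀ φ : g2 K ≃ₗ⁅K⁆ g2 K, ∀ x ∈ S, φ x ∈ S) ∧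
      BoolComb (PolyOn K (g2 K) : Set (g2 K → K)) S ∧
      ∀ g ∈ PolyOn K (g2 K), (∀ y ∈ S, g y = 0) → ∀ y, g y = 0) ∨
    ∃ (l m : K) (T : Set ℕ), (l ≠ 0 ∨ m ≠ 0) ∧ T ⊆ {0, 1, 2, 5} ∧ (5 ∈ T → Reg l m) ∧
      S = RS K l m T)

end Pool.Agent.Lib.MP_d55432_al.G2
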